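import Mathlib
import Pool.Graph.R_seed8.TH350.RC.SumReg

/-!
# Complementary pairs of regular indices: the identity modulo `p`
-/

set_option autoImplicit false

namespace Pool.Agent.H175.CP

open Polynomial Finset Pool.Agent.TH350.WZ Pool.Agent.TH350.AddF Pool.Agent.H332R2
open Pool.Agent.TH350.SumReg

variable {p : ℕ} [hp : Fact p.Prime]

/-- `p B_{p-1}` is `p`-integral and congruent to `-1` -/
theorem staudt (h3 : 3 ≤ p) :
    ((((p : ℚ) * _root_.bernoulli (p - 1)).den : ℕ) : ZMod p) ≠ 0 ∧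
      (((p : ℚ) * _root_.bernoulli (p - 1) : ℚ) : ZMod p) = -1 := by
  have h := _root_.sum_bernoulli p
  rw [if_neg (by omega)] at h
  obtain ⟨q, rfl⟩ : ∃ q, p = q + 1 := ⟨p - 1, by omega⟩
  rw [Finset.sum_range_succ] at h
  have h1 : (((q + 1).choose q : ℕ) : ℚ) = ((q + 1 : ℕ) : ℚ) := by
    rw [Nat.choose_succ_self_right]
  have hq : q + 1 - 1 = q := rfl
  rw [hq]
  have h2 : ((q + 1 : ℕ) : ℚ) * _root_.bernoulli q =
      ∑ k ∈ range q, (((-1 : ℤ) : ℚ) * ((((q + 1).choose k : ℕ) : ℚ) * _root_.bernoulli k)) := by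
    rw [← Finset.mul_sum]
    rw [h1] at h
    push_cast at h ⊢
    linarith
  have hden : ∀ k ∈ range q, ((((((-1 : ℤ) : ℚ)) * ((((q + 1).choose k : ℕ) : ℚ) * _root_.bernoulli k)).den : ℕ) :
      ZMod (q + 1)) ≠ 0 := by
    intro k hk
    rw [Finset.mem_range] at hk
    exact den_mul_ne (int_ok (-1)).1 (den_mul_ne (den_nat_ne _) (bern_den_ne (by omega) h3))
  have h4 := cast_sum_ok (F := ZMod (q + 1)) (range q) _ hden
  rw [← h2] at h4
  refine ⟨h4.1, h4.2.trans ?_⟩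
  rw [Finset.sum_eq_single 0]
  · simp
  · intro k hk hk0
    rw [Finset.mem_range] at hk
    have hch : (((q + 1).choose k : ℕ) : ZMod (q + 1)) = 0 := by
      rw [ZMod.natCast_eq_zero_iff]
      exact hp.out.dvd_choose_self hk0 (by omega)
    rw [Rat.cast_mul_of_ne_zero (int_ok (-1)).1
      (den_mul_ne (den_nat_ne _) (bern_den_ne (by omega) h3)),
      Rat.cast_mul_of_ne_zero (den_nat_ne _) (bern_den_ne (by omega) h3), Rat.cast_natCast, hch]
    ring
  · intro h0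
    rw [Finset.mem_range] at h0
    omega

theorem py_ok (h3 : 3 ≤ p) (k : ℕ) (hk : 2 * k + 1 = p) :
    ((((p : ℚ) * yy (2 * k)).den : ℕ) : ZMod p) ≠ 0 ∧
      (((p : ℚ) * yy (2 * k) : ℚ) : ZMod p) = 1 := by
  have h1 := staudt (p := p) h3
  have h2 := inv_fact_ok (p := p) (n := 2 * k) (by omega)
  rw [yy_even]
  have hk' : p - 1 = 2 * k := by omega
  rw [hk'] at h1
  rw [← mul_assoc]
  refine ⟨den_mul_ne h1.1 h2.1, ?_⟩
  rw [Rat.cast_mul_of_ne_zero h1.1 h2.1, h2.2, h1.2]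
  have hw := ZMod.wilsons_lemma p
  rw [hk'] at hw
  rw [hw]
  simp

/-- the polynomial `((X + 1) ^ p - X ^ p - 1) / p` -/
noncomputable def FZ (p : ℕ) : ℤ[X] := ∑ j ∈ Ico 1 p, C (((p.choose j / p : ℕ) : ℤ)) * X ^ j

theorem fz_eq : (C (p : ℤ)) * FZ p = (X + 1) ^ p - X ^ p - 1 := by
  unfold FZ
  rw [Finset.mul_sum]
  have h1 : ∀ j ∈ Ico 1 p, C (p : ℤ) * (C (((p.choose j / p : ℕ) : ℤ)) * X ^ j) =
      X ^ j * 1 ^ (p - j) * ((p.choose j : ℕ) : ℤ[X]) := by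
    intro j hj
    rw [Finset.mem_Ico] at hj
    have hd : p ∣ p.choose j := hp.out.dvd_choose_self (by omega) hj.2
    have h2 : ((p.choose j : ℕ) : ℤ[X]) = C ((p : ℤ)) * C (((p.choose j / p : ℕ) : ℤ)) := by
      rw [← C_mul, ← Nat.cast_mul, Nat.mul_div_cancel' hd]
      simp
    rw [h2]
    ring
  rw [Finset.sum_congr rfl h1]
  have h3 := add_pow (X : ℤ[X]) 1 p
  have hpos : 1 ≤ p := hp.out.pos
  rw [Finset.sum_range_succ, ← Finset.sum_range_add_sum_Ico _ hpos] at h3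
  rw [Finset.sum_range_one] at h3
  simp only [pow_zero, one_pow, mul_one, Nat.choose_zero_right, Nat.cast_one, Nat.choose_self] at h3 ⊢
  rw [h3]
  ring

/-- the reduction modulo `p` -/
noncomputable def FP (p : ℕ) : (ZMod p)[X] := (FZ p).map (Int.castRingHom (ZMod p))

theorem fz_deriv : derivative (FZ p) = (X + 1) ^ (p - 1) - X ^ (p - 1) := by
  have h := congrArg derivative (fz_eq (p := p))
  rw [derivative_C_mul, derivative_sub, derivative_sub, derivative_pow, derivative_X_pow] at h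
  have hp0 : (C (p : ℤ) : ℤ[X]) ≠ 0 := by
    rw [Ne, C_eq_zero]
    exact_mod_cast hp.out.pos.ne'
  apply mul_left_cancel₀ hp0
  rw [h]
  simp
  ring

theorem fp_deriv : derivative (FP p) = (X + 1) ^ (p - 1) - X ^ (p - 1) := by
  unfold FP
  rw [derivative_map, fz_deriv]
  simp

theorem fp_degree : (FP p).natDegree < p := by
  have h1 : (FZ p).natDegree ≤ p - 1 := by
    unfold FZ
    refine natDegree_sum_le_of_forall_le _ _ (fun j hj => ?_)
    rw [Finset.mem_Ico] at hj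
    refine (natDegree_C_mul_X_pow_le _ _).trans ?_
    omega
  have h2 : (FP p).natDegree ≤ (FZ p).natDegree := natDegree_map_le
  have := hp.out.pos
  omega

theorem fz_eval (t : ℕ) : (p : ℤ) * (FZ p).eval (t : ℤ) = ((t : ℤ) + 1) ^ p - (t : ℤ) ^ p - 1 := by
  have h := congrArg (eval (t : ℤ)) (fz_eq (p := p))
  simpa using h

theorem fp_eval (t : ℕ) : (FP p).eval (t : ZMod p) = (((FZ p).eval (t : ℤ) : ℤ) : ZMod p) := by
  unfold FP
  rw [eval_map]
  have h := Polynomial.eval₂_at_apply (p := FZ p) (Int.castRingHom (ZMod p)) (t : ℤ)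
  rw [show (Int.castRingHom (ZMod p)) (t : ℤ) = (t : ZMod p) by simp] at h
  rw [h]
  rfl

/-- The identity modulo `p`. -/
theorem identity_mod2 (k t : ℕ) (hk : 2 ≤ k) (hkp : 2 * k + 1 = p) (ht : 1 ≤ t) :
    (FP p).eval (t : ZMod p) + ∑ i ∈ Ico 1 k, ww p k i *
      (((t : ZMod p) + 1) ^ (2 * i) * ((t : ZMod p) ^ (2 * (k - i)) + t)
        - ((t : ZMod p) + 1) * (t : ZMod p) ^ (2 * i)) = 0 := by
  have h := identity_rat k t hk ht
  set c : ℕ → ℤ := fun i => ((t : ℤ) + 1) ^ (2 * i) * ((t : ℤ) ^ (2 * (k - i)) + t)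
    - ((t : ℤ) + 1) * (t : ℤ) ^ (2 * i) with hc
  rw [Finset.sum_range_succ, ← Finset.sum_range_add_sum_Ico _ (show 1 ≤ k by omega),
    Finset.sum_range_one] at h
  have hy0 : yy (2 * 0) = 1 := by
    rw [yy_even]; simp
  have hF := fz_eval (p := p) t
  have hFq : (p : ℚ) * (((FZ p).eval (t : ℤ) : ℤ) : ℚ) = ((t : ℚ) + 1) ^ p - (t : ℚ) ^ p - 1 := by
    exact_mod_cast hF
  have h' : ((p : ℚ) * yy (2 * k)) * (((FZ p).eval (t : ℤ) : ℤ) : ℚ) +
      ∑ i ∈ Ico 1 k, yy (2 * i) * yy (2 * (k - i)) * ((c i : ℤ) : ℚ) = 0 := by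
    have e1 : ((p : ℚ) * yy (2 * k)) * (((FZ p).eval (t : ℤ) : ℤ) : ℚ) =
        yy (2 * k) * (((t : ℚ) + 1) ^ p - (t : ℚ) ^ p - 1) := by
      rw [← hFq]; ring
    have e2 : ∑ i ∈ Ico 1 k, yy (2 * i) * yy (2 * (k - i)) * ((c i : ℤ) : ℚ) =
        ∑ i ∈ Ico 1 k, yy (2 * i) * yy (2 * (k - i)) *
      (((t : ℚ) + 1) ^ (2 * i) * ((t : ℚ) ^ (2 * (k - i)) + t) - ((t : ℚ) + 1) * (t : ℚ) ^ (2 * i)) := by
      refine Finset.sum_congr rfl (fun i _ => ?_)
      rw [hc]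
      push_cast
      ring
    rw [e1, e2, ← hkp]
    rw [hy0] at h
    simp only [Nat.sub_self, Nat.sub_zero, Nat.mul_zero, pow_zero] at h hy0
    rw [hy0] at h
    linear_combination h
  have hok : ∀ i ∈ Ico 1 k, ((yy (2 * i) * yy (2 * (k - i)) * ((c i : ℤ) : ℚ)).den : ZMod p) ≠ 0 := by
    intro i hi
    rw [Finset.mem_Ico] at hi
    exact den_mul_ne (den_mul_ne (yy_ok (by omega)).1 (yy_ok (by omega)).1) (int_ok _).1
  have h2 := cast_sum_ok (F := ZMod p) (Ico 1 k) _ hok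
  have hpy := py_ok (p := p) (by omega) k hkp
  have hd1 := den_mul_ne hpy.1 (int_ok (p := p) ((FZ p).eval (t : ℤ))).1
  have h3 := congrArg (fun x : ℚ => (x : ZMod p)) h'
  rw [Rat.cast_add_of_ne_zero hd1 h2.1, Rat.cast_zero, h2.2,
    Rat.cast_mul_of_ne_zero hpy.1 (int_ok (p := p) ((FZ p).eval (t : ℤ))).1, hpy.2,
    (int_ok (p := p) ((FZ p).eval (t : ℤ))).2, one_mul, ← fp_eval] at h3
  rw [← h3]
  congr 1
  refine Finset.sum_congr rfl (fun i hi => ?_)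
  rw [Finset.mem_Ico] at hi
  have a1 := yy_ok (p := p) (m := i) (by omega)
  have a2 := yy_ok (p := p) (m := k - i) (by omega)
  have a3 := int_ok (p := p) (c i)
  rw [Rat.cast_mul_of_ne_zero (den_mul_ne a1.1 a2.1) a3.1, Rat.cast_mul_of_ne_zero a1.1 a2.1,
    a1.2, a2.2, a3.2, hc]
  unfold ww
  push_cast
  ring

end Pool.Agent.H175.CP
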