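import Pool.Agent.H175.CP.Base

/-!
# Complementary pairs of regular indices: the zero estimate
-/

set_option autoImplicit false

namespace Pool.Agent.H175.CP

open Polynomial Finset Pool.Agent.TH350.WZ Pool.Agent.TH350.AddF Pool.Agent.H332R2
open Pool.Agent.TH350.SumReg

variable {p : ℕ} [hp : Fact p.Prime]

theorem identity_poly2 (k : ℕ) (hk : 2 ≤ k) (hkp : 2 * k + 1 = p) :
    FP p + ∑ i ∈ Ico 1 k, C (ww p k i) *
      (((X : (ZMod p)[X]) + 1) ^ (2 * i) * (X ^ (2 * (k - i)) + X) - (X + 1) * X ^ (2 * i)) = 0 := by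
  apply Polynomial.eq_zero_of_natDegree_lt_card_of_eval_eq_zero (f := fun x : ZMod p => x)
    (hf := fun _ _ h => h)
  · intro x
    obtain ⟨t, ht, hx⟩ : ∃ t : ℕ, 1 ≤ t ∧ (t : ZMod p) = x := by
      refine ⟨x.val + p, ?_, ?_⟩
      · have := hp.out.pos; omega
      · push_cast
        simp
    have h := identity_mod2 k t hk hkp ht
    rw [hx] at h
    rw [← h, eval_add, eval_finsetSum]
    congr 1
    refine Finset.sum_congr rfl (fun i _ => ?_)
    simp
  · rw [ZMod.card]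
    refine lt_of_le_of_lt (natDegree_add_le _ _) (max_lt fp_degree ?_)
    have : natDegree (∑ i ∈ Ico 1 k, C (ww p k i) *
      (((X : (ZMod p)[X]) + 1) ^ (2 * i) * (X ^ (2 * (k - i)) + X) - (X + 1) * X ^ (2 * i))) ≤ 2 * k := by
      refine natDegree_sum_le_of_forall_le _ _ (fun i hi => ?_)
      rw [Finset.mem_Ico] at hi
      refine (natDegree_C_mul_le _ _).trans ?_
      have hX1 : ∀ n : ℕ, (((X : (ZMod p)[X]) + 1) ^ n).natDegree ≤ n := by
        intro n
        refine natDegree_pow_le.trans ?_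
        have : (X + 1 : (ZMod p)[X]).natDegree ≤ 1 := by compute_degree
        nlinarith
      have d1 : (X ^ (2 * (k - i)) + X : (ZMod p)[X]).natDegree ≤ max (2 * (k - i)) 1 :=
        (natDegree_add_le _ _).trans (max_le_max (natDegree_X_pow_le _) natDegree_X_le)
      have d2 := natDegree_mul_le (p := ((X : (ZMod p)[X]) + 1) ^ (2 * i)) (q := X ^ (2 * (k - i)) + X)
      have d3 := hX1 (2 * i)
      have d4 := natDegree_mul_le (p := ((X : (ZMod p)[X]) + 1)) (q := X ^ (2 * i))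
      have d5 : (X + 1 : (ZMod p)[X]).natDegree ≤ 1 := by compute_degree
      have d6 := natDegree_X_pow_le (R := ZMod p) (2 * i)
      have d7 : max (2 * (k - i)) 1 = 2 * (k - i) := by omega
      refine (natDegree_sub_le _ _).trans (max_le ?_ ?_)
      · omega
      · omega
    omega

theorem sum_comp' (s : Finset ℕ) (g : ℕ → (ZMod p)[X]) (q : (ZMod p)[X]) :
    (∑ i ∈ s, g i).comp q = ∑ i ∈ s, (g i).comp q := by
  classical
  induction s using Finset.induction_on with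
  | empty => simp
  | insert a s ha ih => rw [Finset.sum_insert ha, Finset.sum_insert ha, add_comp, ih]

theorem term_deriv (a b : ℕ) : (X + 1) * derivative (((X : (ZMod p)[X]) + 1) ^ (2 * (a + 1)) *
      (X ^ (2 * (b + 1)) + X) - (X + 1) * X ^ (2 * (a + 1))) =
    C ((2 * (b + 1) : ℕ) : ZMod p) * (X ^ (2 * b + 1) * (X + 1) ^ (2 * a + 3)) +
      C ((2 * (a + 1) : ℕ) : ZMod p) * (X ^ (2 * b + 2) * (X + 1) ^ (2 * a + 2)) +
      (X + 1) ^ (2 * a + 3) + C ((2 * (a + 1) : ℕ) : ZMod p) * (X * (X + 1) ^ (2 * a + 2)) -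
      (X + 1) * X ^ (2 * a + 2) -
      C ((2 * (a + 1) : ℕ) : ZMod p) * ((X + 1) ^ 2 * X ^ (2 * a + 1)) := by
  have h1 : derivative (((X : (ZMod p)[X]) + 1) ^ (2 * (a + 1))) =
      C ((2 * (a + 1) : ℕ) : ZMod p) * (X + 1) ^ (2 * a + 1) := by
    rw [derivative_pow]
    have : 2 * (a + 1) - 1 = 2 * a + 1 := by omega
    rw [this]
    simp
  have h2 : ∀ c : ℕ, derivative ((X : (ZMod p)[X]) ^ (2 * (c + 1))) =
      C ((2 * (c + 1) : ℕ) : ZMod p) * X ^ (2 * c + 1) := by
    intro c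
    rw [derivative_X_pow]
    have : 2 * (c + 1) - 1 = 2 * c + 1 := by omega
    rw [this]
  rw [derivative_sub, derivative_mul, derivative_mul, derivative_add, derivative_add, h1, h2, h2]
  simp only [derivative_X, derivative_one, add_zero, one_mul]
  ring

theorem comp_term (a b : ℕ) (u v : ZMod p) :
    (C v * (X ^ (2 * b + 1) * (X + 1) ^ (2 * a + 3)) +
      C u * (X ^ (2 * b + 2) * (X + 1) ^ (2 * a + 2)) +
      (X + 1) ^ (2 * a + 3) + C u * (X * (X + 1) ^ (2 * a + 2)) -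
      (X + 1) * X ^ (2 * a + 2) - C u * ((X + 1) ^ 2 * X ^ (2 * a + 1))).comp (-(X + 1)) =
    C v * ph (2 * a + 3, 2 * b + 1) + C u * ph (2 * a + 2, 2 * b + 2) - ph (2 * a + 3, 0)
      - C u * ph (2 * a + 2, 1) + ph (1, 2 * a + 2) + C u * ph (2, 2 * a + 1) := by
  have e1 : ∀ (Y : (ZMod p)[X]) (n : ℕ), (-Y) ^ (2 * n + 1) = - Y ^ (2 * n + 1) := by
    intro Y n
    exact Odd.neg_pow ⟨n, rfl⟩ Y
  have e2 : ∀ (Y : (ZMod p)[X]) (n : ℕ), (-Y) ^ (2 * n) = Y ^ (2 * n) := by
    intro Y n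
    exact Even.neg_pow ⟨n, by ring⟩ Y
  have e3 : (X + 1 : (ZMod p)[X]).comp (-(X + 1)) = -X := by simp
  simp only [sub_comp, add_comp, mul_comp, pow_comp, C_comp, X_comp, one_comp]
  have e4 : -(X + 1) + 1 = (-X : (ZMod p)[X]) := by ring
  rw [e4]
  have f1 : 2 * a + 3 = 2 * (a + 1) + 1 := by ring
  have f2 : 2 * a + 2 = 2 * (a + 1) := by ring
  have f3 : 2 * b + 2 = 2 * (b + 1) := by ring
  rw [f1, f2, f3]
  simp only [e1, e2]
  unfold ph
  simp only
  ring

/-- The identity after differentiation and the substitution `X ↦ - 1 - X`. -/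
theorem key (k : ℕ) (hk : 2 ≤ k) (hkp : 2 * k + 1 = p) :
    (X + 1 : (ZMod p)[X]) ^ (p - 1) = 1 + ∑ i ∈ Ico 1 k, C (ww p k i) *
      (C ((2 * (k - i) : ℕ) : ZMod p) * ph (2 * i + 1, 2 * (k - i) - 1) +
        C ((2 * i : ℕ) : ZMod p) * ph (2 * i, 2 * (k - i)) - ph (2 * i + 1, 0)
        - C ((2 * i : ℕ) : ZMod p) * ph (2 * i, 1) + ph (1, 2 * i) +
        C ((2 * i : ℕ) : ZMod p) * ph (2, 2 * i - 1)) := by
  have h1 := congrArg (fun q : (ZMod p)[X] => ((X + 1) * derivative q).comp (-(X + 1)))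
    (identity_poly2 (p := p) k hk hkp)
  rw [derivative_add, derivative_sum, derivative_zero, mul_zero, zero_comp, mul_add,
    Finset.mul_sum, add_comp, sum_comp'] at h1
  simp only [derivative_C_mul] at h1
  have h2 : ((X + 1) * derivative (FP p)).comp (-(X + 1)) = 1 - (X + 1) ^ (p - 1) := by
    rw [fp_deriv]
    have e1 : (X + 1 : (ZMod p)[X]) * ((X + 1) ^ (p - 1) - X ^ (p - 1)) = 1 - X ^ (p - 1) := by
      have e2 : (X + 1 : (ZMod p)[X]) * (X + 1) ^ (p - 1) = X ^ p + 1 := by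
        rw [← pow_succ', Nat.sub_add_cancel hp.out.pos, add_pow_char]
        simp
      have e3 : (X : (ZMod p)[X]) ^ p = X * X ^ (p - 1) := by
        rw [← pow_succ', Nat.sub_add_cancel hp.out.pos]
      rw [mul_sub, e2, e3]
      ring
    rw [e1]
    have e5 : p - 1 = 2 * k := by omega
    rw [e5]
    simp only [sub_comp, one_comp, pow_comp, X_comp]
    rw [Even.neg_pow ⟨k, by ring⟩]
  rw [h2] at h1
  have h3 : ∀ i ∈ Ico 1 k, ((X + 1) * (C (ww p k i) * derivative
      (((X : (ZMod p)[X]) + 1) ^ (2 * i) * (X ^ (2 * (k - i)) + X) - (X + 1) * X ^ (2 * i)))).comp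
        (-(X + 1)) = C (ww p k i) *
      (C ((2 * (k - i) : ℕ) : ZMod p) * ph (2 * i + 1, 2 * (k - i) - 1) +
        C ((2 * i : ℕ) : ZMod p) * ph (2 * i, 2 * (k - i)) - ph (2 * i + 1, 0)
        - C ((2 * i : ℕ) : ZMod p) * ph (2 * i, 1) + ph (1, 2 * i) +
        C ((2 * i : ℕ) : ZMod p) * ph (2, 2 * i - 1)) := by
    intro i hi
    rw [Finset.mem_Ico] at hi
    obtain ⟨a, rfl⟩ : ∃ a, i = a + 1 := ⟨i - 1, by omega⟩
    obtain ⟨b, hb⟩ : ∃ b, k - (a + 1) = b + 1 := ⟨k - (a + 1) - 1, by omega⟩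
    rw [hb]
    rw [show (X + 1) * (C (ww p k (a + 1)) * derivative
      (((X : (ZMod p)[X]) + 1) ^ (2 * (a + 1)) * (X ^ (2 * (b + 1)) + X) - (X + 1) * X ^ (2 * (a + 1))))
      = C (ww p k (a + 1)) * ((X + 1) * derivative
      (((X : (ZMod p)[X]) + 1) ^ (2 * (a + 1)) * (X ^ (2 * (b + 1)) + X) -
        (X + 1) * X ^ (2 * (a + 1)))) by ring]
    rw [term_deriv, mul_comp, C_comp, comp_term]
    have g1 : 2 * (a + 1) + 1 = 2 * a + 3 := by ring
    have g2 : 2 * (b + 1) - 1 = 2 * b + 1 := by omega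
    have g3 : 2 * (a + 1) - 1 = 2 * a + 1 := by omega
    have g4 : 2 * (a + 1) = 2 * a + 2 := by ring
    have g5 : 2 * (b + 1) = 2 * b + 2 := by ring
    rw [g1, g2, g3, g4, g5]
  have h4 : ∑ i ∈ Ico 1 k, ((X + 1) * (C (ww p k i) * derivative
      (((X : (ZMod p)[X]) + 1) ^ (2 * i) * (X ^ (2 * (k - i)) + X) - (X + 1) * X ^ (2 * i)))).comp
        (-(X + 1)) = _ := Finset.sum_congr rfl h3
  rw [← h4]
  linear_combination (-1 : (ZMod p)[X]) * h1

theorem main (k : ℕ) (hk : 2 ≤ k) (hkp : 2 * k + 1 = p)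
    (I : Finset ℕ) (hI : ∀ i, 0 < i → i < k → ¬ (p : ℤ) ∣ (_root_.bernoulli (2 * i)).num →
      ¬ (p : ℤ) ∣ (_root_.bernoulli (2 * (k - i))).num → i ∈ I) (hIk : ∀ i ∈ I, 0 < i ∧ i < k) :
    2 * (p - 1) ≤ (6 * I.card + 1) * (6 * I.card) := by
  classical
  have hccb : ∀ m, 2 * m + 3 ≤ p → (cc p (2 * m) = 0 ↔ (p : ℤ) ∣ (_root_.bernoulli (2 * m)).num) :=
    fun m hm => cc_eq_zero_iff (by omega) (by omega)
  have hkey := key (p := p) k hk hkp
  set T : ℕ → (ZMod p)[X] := fun i => (C ((2 * (k - i) : ℕ) : ZMod p) * ph (2 * i + 1, 2 * (k - i) - 1) +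
        C ((2 * i : ℕ) : ZMod p) * ph (2 * i, 2 * (k - i)) - ph (2 * i + 1, 0)
        - C ((2 * i : ℕ) : ZMod p) * ph (2 * i, 1) + ph (1, 2 * i) +
        C ((2 * i : ℕ) : ZMod p) * ph (2, 2 * i - 1)) with hT
  have hsum : ∑ i ∈ Ico 1 k, C (ww p k i) * T i = ∑ i ∈ I, C (ww p k i) * T i := by
    refine (Finset.sum_subset ?_ ?_).symm
    · intro i hi
      have := hIk i hi
      rw [Finset.mem_Ico]; omega
    · intro i hi hiI
      rw [Finset.mem_Ico] at hi
      have hz : ww p k i = 0 := by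
        by_contra hne
        apply hiI
        unfold ww at hne
        refine hI i (by omega) (by omega) ?_ ?_
        · intro h
          exact left_ne_zero_of_mul hne ((hccb i (by omega)).2 h)
        · intro h
          exact right_ne_zero_of_mul hne ((hccb (k - i) (by omega)).2 h)
      rw [hz, C_0, zero_mul]
  rw [hsum] at hkey
  set J : ℕ → Finset (ℕ × ℕ) := fun i => {(2 * i + 1, 2 * (k - i) - 1), (2 * i, 2 * (k - i)),
    (2 * i + 1, 0), (2 * i, 1), (1, 2 * i), (2, 2 * i - 1)} with hJ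
  set S : Finset (ℕ × ℕ) := {(0, 0)} ∪ I.biUnion J with hS
  have hJc : ∀ i ∈ I, (J i).card ≤ 6 := fun i _ => Finset.card_le_six
  have hcard : S.card ≤ 6 * I.card + 1 := by
    have e1 := Finset.card_union_le ({(0, 0)} : Finset (ℕ × ℕ)) (I.biUnion J)
    have e2 := Finset.card_biUnion_le_card_mul I J 6 hJc
    rw [Finset.card_singleton] at e1
    rw [hS]
    omega
  have hSmem : ∀ s ∈ S, s = (0, 0) ∨ ∃ i ∈ I, s ∈ J i := by
    intro s hs
    rw [hS, Finset.mem_union, Finset.mem_singleton, Finset.mem_biUnion] at hs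
    exact hs
  have hmem : ∀ s ∈ S, (ph s : (ZMod p)[X]) ∈ Submodule.span (ZMod p) (ph '' (S : Set (ℕ × ℕ))) :=
    fun s hs => Submodule.subset_span (Set.mem_image_of_mem _ hs)
  have hJS : ∀ i ∈ I, ∀ s ∈ J i, s ∈ S := by
    intro i hi s hs
    rw [hS, Finset.mem_union, Finset.mem_biUnion]
    exact Or.inr ⟨i, hi, hs⟩
  have hz := zest (F := ZMod p) p S ?_ ?_ ((X + 1) ^ (p - 1)) (p - 1) ?_ ?_ ?_
  · refine hz.trans ?_
    have h2 := Nat.mul_le_mul hcard (Nat.sub_le_sub_right hcard 1)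
    have h3 : 6 * I.card + 1 - 1 = 6 * I.card := by omega
    rw [h3] at h2
    exact h2
  · intro s hs
    rcases hSmem s hs with rfl | ⟨i, hi, hsi⟩
    · simp only
      have := hp.out.pos
      omega
    · have := hIk i hi
      simp only [hJ, Finset.mem_insert, Finset.mem_singleton] at hsi
      rcases hsi with rfl | rfl | rfl | rfl | rfl | rfl <;> (simp only; omega)
  · intro s hs
    rcases hSmem s hs with rfl | ⟨i, hi, hsi⟩
    · simp
    · have := hIk i hi
      simp only [hJ, Finset.mem_insert, Finset.mem_singleton] at hsi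
      rcases hsi with rfl | rfl | rfl | rfl | rfl | rfl <;> (simp only; omega)
  · rw [hkey]
    refine Submodule.add_mem _ ?_ (Submodule.sum_mem _ fun i hi => ?_)
    · have h0 : (1 : (ZMod p)[X]) = ph (0, 0) := by unfold ph; simp
      rw [h0]
      refine hmem _ ?_
      rw [hS]; simp
    · rw [← Polynomial.smul_eq_C_mul]
      refine Submodule.smul_mem _ _ ?_
      rw [hT]
      simp only [← Polynomial.smul_eq_C_mul]
      refine Submodule.add_mem _ (Submodule.add_mem _ (Submodule.sub_mem _ (Submodule.sub_mem _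
        (Submodule.add_mem _ (Submodule.smul_mem _ _ (hmem _ ?_))
        (Submodule.smul_mem _ _ (hmem _ ?_))) (hmem _ ?_)) (Submodule.smul_mem _ _ (hmem _ ?_)))
        (hmem _ ?_)) (Submodule.smul_mem _ _ (hmem _ ?_))
      all_goals
        refine hJS i hi _ ?_
        rw [hJ]
        simp only [Finset.mem_insert, Finset.mem_singleton, true_or, or_true]
  · exact dvd_refl _
  · rw [coeff_zero_eq_eval_zero]
    simp

end Pool.Agent.H175.CP
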